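import Pool.Agent.D0H41.LP.Stm
import Pool.Agent.H369R2.S6a

/-! BETA of the project LP: few `m` have a prime factor near `x`. -/

set_option autoImplicit false

namespace Pool.Agent.D0H98.LP

open Finset Filter Pool.Agent.D0H41.LP

/-- `M = M1 M2`, `M1` squarefree, coprime, `M2 ≤ b ^ 3`, `b ^ 2 ∣ M` -/
theorem decomp (M : ℕ) (hM : 0 < M) : ∃ b M1 M2 : ℕ, 0 < b ∧ 0 < M2 ∧ Squarefree M1 ∧
    Nat.Coprime M1 M2 ∧ M1 * M2 = M ∧ b ^ 2 ∣ M ∧ M2 ≤ b ^ 3 := by
  obtain ⟨c, b, hc, hb, h1, h2⟩ := Nat.sq_mul_squarefree_of_pos hM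
  set g := Nat.gcd c b with hg
  have hg0 : 0 < g := Nat.gcd_pos_of_pos_left _ hc
  obtain ⟨c', hc'⟩ : g ∣ c := Nat.gcd_dvd_left c b
  have hgb : g ∣ b := Nat.gcd_dvd_right c b
  have hsq : Squarefree (g * c') := hc' ▸ h2
  have hcop1 : Nat.Coprime g c' := Nat.coprime_of_squarefree_mul hsq
  have hcop2 : Nat.Coprime c' b := by
    rw [Nat.coprime_iff_gcd_eq_one]
    by_contra hne
    obtain ⟨q, hq, hqd⟩ := Nat.exists_prime_and_dvd hne
    have hq1 : q ∣ c' := hqd.trans (Nat.gcd_dvd_left _ _)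
    have hq2 : q ∣ b := hqd.trans (Nat.gcd_dvd_right _ _)
    have hq3 : q ∣ g := Nat.dvd_gcd (hc' ▸ hq1.mul_left g) hq2
    have := Nat.Coprime.eq_one_of_dvd (Nat.Coprime.coprime_dvd_left hq3 hcop1) hq1
    exact hq.one_lt.ne' this
  refine ⟨b, c', b ^ 2 * g, hb, by positivity, hsq.of_mul_right, ?_, ?_, ?_, ?_⟩
  · exact Nat.Coprime.mul_right (hcop2.pow_right 2) hcop1.symm
  · rw [← h1, hc']; ring
  · rw [← h1]; exact Dvd.intro _ rfl
  · have := Nat.le_of_dvd hb hgb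
    calc b ^ 2 * g ≤ b ^ 2 * b := Nat.mul_le_mul_left _ this
      _ = b ^ 3 := by ring

theorem Om_card (M V : ℕ) : (Om M V).card ≤ 2 * V + 1 := by
  have h1 : (Om M V).card ≤ (Icc (-(V : ℤ)) V).card := by
    apply Finset.card_le_card_of_injOn (fun t => t.2)
    · intro t ht
      simp only [Om, coe_filter, Set.mem_ofPred_eq, mem_product] at ht
      exact ht.1.2
    · intro t ht t' ht' h
      simp only [Om, coe_filter, Set.mem_ofPred_eq, mem_product, mem_Icc] at ht ht'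
      obtain ⟨⟨⟨a1, a2⟩, _⟩, a3⟩ := ht
      obtain ⟨⟨⟨b1, b2⟩, _⟩, b3⟩ := ht'
      simp only at h
      rw [← h] at b3
      have h2 : t.1 ≡ t'.1 [ZMOD M] := by
        calc t.1 = t.1 * 1 := by ring
          _ ≡ t.1 * (t'.1 * t.2) [ZMOD M] := (Int.ModEq.mul_left _ b3.symm)
          _ = t'.1 * (t.1 * t.2) := by ring
          _ ≡ t'.1 * 1 [ZMOD M] := Int.ModEq.mul_left _ a3
          _ = t'.1 := by ring
      have h3 : (M : ℤ) ∣ t'.1 - t.1 := h2.dvd
      have h4 : t'.1 - t.1 = 0 := by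
        apply Int.eq_zero_of_abs_lt_dvd h3
        rw [abs_lt]; constructor <;> linarith
      ext
      · linarith
      · exact h
  refine h1.trans ?_
  rw [Int.card_Icc]
  omega

open Classical in
/-- the sifted points -/
noncomputable def Sset (a z z' z0 V : ℕ) (j : Bool) (M : ℕ) : Finset (ℤ × ℤ) :=
  (Om M V).filter fun t => ∀ q ∈ P z', z0 < q → ¬ q ∣ M → ¬ hit j a M z q t

/-- the range of `M` -/
def Rg (N : ℕ) : Finset ℕ := (Icc 1 (Nat.sqrt (2 * N))).filter (fun M => N < 4 * M ^ 2)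

theorem Qf_ge (a : ℕ) (j : Bool) (y M : ℕ) (ha : 1 ≤ a) : ((M : ℤ)) ^ 2 ≤ Qf j a y M := by
  unfold Qf
  have ha' : (1 : ℤ) ≤ a := by exact_mod_cast ha
  split_ifs
  · nlinarith [sq_nonneg (y : ℤ), sq_nonneg (M : ℤ)]
  · nlinarith [sq_nonneg (y : ℤ), sq_nonneg (M : ℤ)]

theorem Qf_le (a : ℕ) (j : Bool) (y M : ℕ) (ha : a = 1 ∨ a = 3) (hy : y ≤ M) :
    Qf j a y M ≤ 4 * ((M : ℤ)) ^ 2 := by
  unfold Qf
  have hy' : (y : ℤ) ^ 2 ≤ (M : ℤ) ^ 2 := by
    have : (y : ℤ) ≤ M := by exact_mod_cast hy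
    exact pow_le_pow_left₀ (by positivity) this 2
  rcases ha with rfl | rfl
  · split_ifs <;> push_cast <;> nlinarith [sq_nonneg (y : ℤ), sq_nonneg (M : ℤ)]
  · split_ifs <;> push_cast <;> nlinarith [sq_nonneg (y : ℤ), sq_nonneg (M : ℤ)]

open Classical in
theorem cover (hREP : S_REP) {a : ℕ} (ha : a = 1 ∨ a = 3) {x z z' z0 N V : ℕ} (hN : 3 ≤ N)
    (hz' : z' ≤ N) (hV : 2 * ((x : ℝ) + 3) ≤ V * Real.sqrt N) :
    ((Icc 1 x ×ˢ Ioc N (2 * N)).filter fun t => Sft z t.1 ∧ t.2.Prime ∧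
      t.2 ∣ t.1 ^ 2 + a).card ≤
      ∑ j : Bool, ∑ M ∈ Rg N, (Sset a z z' z0 V j M).card := by
  classical
  set T : Finset (Σ _ : Bool × ℕ, ℤ × ℤ) :=
    ((univ : Finset Bool) ×ˢ Rg N).sigma (fun jM => Sset a z z' z0 V jM.1 jM.2) with hT
  have hcard : T.card = ∑ j : Bool, ∑ M ∈ Rg N, (Sset a z z' z0 V j M).card := by
    rw [hT, Finset.card_sigma, Finset.sum_product]
  rw [← hcard]
  set g : (Σ _ : Bool × ℕ, ℤ × ℤ) → ℕ × ℕ := fun w =>
    ((|Lf w.1.1 a w.2.1 w.2.2 w.1.2| / (w.1.2 : ℤ)).toNat, (Qf w.1.1 a w.2.1 w.1.2).toNat) with hgdef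
  refine le_trans (Finset.card_le_card (t := T.image g) ?_) Finset.card_image_le
  intro t ht
  obtain ⟨m, p⟩ := t
  simp only [mem_filter, mem_product, mem_Icc, mem_Ioc] at ht
  obtain ⟨⟨⟨hm1, hm2⟩, hp1, hp2⟩, hS, hp, hd⟩ := ht
  obtain ⟨j, M, y, s, hy1, hyM, hys, hQ, hs, hL⟩ := hREP a m p ha hp (by omega) hm1 hd
  have ha1 : 1 ≤ a := by rcases ha with rfl | rfl <;> norm_num
  have ha3 : a ≤ 3 := by rcases ha with rfl | rfl <;> norm_num
  have hM1 : 1 ≤ M := hy1.trans hyM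
  have hMp : M ^ 2 ≤ p := by
    have := Qf_ge a j y M ha1
    rw [hQ] at this
    exact_mod_cast this
  have hpM : p ≤ 4 * M ^ 2 := by
    have := Qf_le a j y M ha hyM
    rw [hQ] at this
    exact_mod_cast this
  rw [mem_image]
  refine ⟨⟨(j, M), (y, s)⟩, ?_, ?_⟩
  · rw [hT, mem_sigma, mem_product]
    refine ⟨⟨mem_univ _, ?_⟩, ?_⟩
    · simp only [Rg, mem_filter, mem_Icc]
      refine ⟨⟨hM1, ?_⟩, by omega⟩
      rw [Nat.le_sqrt']
      omega
    · simp only [Sset, mem_filter, Om, mem_product, mem_Icc]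
      refine ⟨⟨⟨⟨by exact_mod_cast hy1, by exact_mod_cast hyM⟩, ?_⟩, hys⟩, ?_⟩
      · -- bound of `s`
        have h1 : |(s : ℝ)| * (M : ℝ) ^ 2 ≤ ((x : ℝ) + 3) * M := by
          have e1 : (|s| : ℤ) * p ≤ (m + a) * M := hs
          have e2 : ((|s| : ℤ) : ℝ) * p ≤ ((m : ℝ) + a) * M := by exact_mod_cast e1
          have e3 : (m : ℝ) + a ≤ x + 3 := by
            have : m + a ≤ x + 3 := by omega
            exact_mod_cast this
          have e4 : (M : ℝ) ^ 2 ≤ p := by exact_mod_cast hMp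
          have e5 : (0 : ℝ) ≤ M := by positivity
          have e6 : (0 : ℝ) ≤ ((|s| : ℤ) : ℝ) := by exact_mod_cast abs_nonneg s
          calc |(s : ℝ)| * (M : ℝ) ^ 2 = ((|s| : ℤ) : ℝ) * (M : ℝ) ^ 2 := by push_cast; ring
            _ ≤ ((|s| : ℤ) : ℝ) * p := mul_le_mul_of_nonneg_left e4 e6
            _ ≤ _ := e2
            _ ≤ _ := mul_le_mul_of_nonneg_right e3 e5
        have hMpos : (0 : ℝ) < M := by exact_mod_cast hM1
        have h2 : |(s : ℝ)| * M ≤ x + 3 := by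
          have : (|(s : ℝ)| * M) * M ≤ (x + 3) * M := by nlinarith
          exact le_of_mul_le_mul_right this hMpos
        have h3 : Real.sqrt N ≤ 2 * M := by
          rw [Real.sqrt_le_left (by positivity)]
          have : N ≤ 4 * M ^ 2 := by omega
          have : (N : ℝ) ≤ 4 * M ^ 2 := by exact_mod_cast this
          nlinarith
        have hsN : 0 < Real.sqrt N := Real.sqrt_pos.mpr (by
          have : 0 < N := by omega
          exact_mod_cast this)
        have h4 : |(s : ℝ)| * Real.sqrt N ≤ V * Real.sqrt N := by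
          calc |(s : ℝ)| * Real.sqrt N ≤ |(s : ℝ)| * (2 * M) :=
                mul_le_mul_of_nonneg_left h3 (abs_nonneg _)
            _ ≤ 2 * (x + 3) := by linarith
            _ ≤ _ := hV
        have h5 : |(s : ℝ)| ≤ V := le_of_mul_le_mul_right h4 hsN
        have h6 : |s| ≤ (V : ℤ) := by exact_mod_cast h5
        exact abs_le.mp h6
      · intro q hq hq0 hqM hhit
        simp only [P, mem_filter, mem_Icc] at hq
        obtain ⟨⟨_, hqz⟩, hqp⟩ := hq
        unfold hit at hhit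
        rcases hhit with hh | ⟨hh1, hh2⟩
        · simp only at hh
          rw [hQ] at hh
          have : q ∣ p := by exact_mod_cast hh
          have := (Nat.prime_dvd_prime_iff_eq hqp hp).mp this
          omega
        · simp only at hh2
          have e1 : (Lf j a y s M) ^ 2 = ((M : ℤ) * m) ^ 2 := by
            rw [hL, sq_abs]
          rw [e1] at hh2
          have e2 : (((M : ℤ) * m) ^ 2 + (M : ℤ) ^ 2) * (((M : ℤ) * m) ^ 2 + 3 * (M : ℤ) ^ 2) =
              ((M ^ 4 * F m : ℕ) : ℤ) := by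
            unfold F; push_cast; ring
          rw [e2] at hh2
          have e3 : q ∣ M ^ 4 * F m := by exact_mod_cast hh2
          rcases (Nat.Prime.dvd_mul hqp).mp e3 with e4 | e4
          · exact hqM (hqp.dvd_of_dvd_pow e4)
          · refine hS q ?_ e4
            simp only [P, mem_filter, mem_Icc]
            exact ⟨⟨hqp.one_lt.le, hh1⟩, hqp⟩
  · simp only [hgdef, Prod.mk.injEq]
    constructor
    · rw [← hL, Int.mul_ediv_cancel_left _ (by positivity)]
      simp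
    · rw [hQ]; simp

end Pool.Agent.D0H98.LP
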