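import Pool.Agent.D0H98.LP.Beta

/-! BETA, second part: the sums over `M`. -/

set_option autoImplicit false

namespace Pool.Agent.D0H98.LP

open Finset Filter Pool.Agent.D0H41.LP

theorem fac_le {q : ℕ} (hq : q.Prime) (h3 : 3 < q) :
    |(1 - 6 / (q : ℝ))⁻¹| ≤ 1 + 42 / (q : ℝ) := by
  rcases Nat.lt_or_ge q 11 with h | h
  · interval_cases q
    · exact absurd hq (by decide)
    · norm_num [abs_le]
    · exact absurd hq (by decide)
    · norm_num [abs_le]
    · exact absurd hq (by decide)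
    · exact absurd hq (by decide)
    · exact absurd hq (by decide)
  · have hq0 : (11 : ℝ) ≤ q := by exact_mod_cast h
    have e : (1 - 6 / (q : ℝ))⁻¹ = q / (q - 6) := by
      field_simp
    rw [e, abs_of_pos (by apply div_pos <;> linarith), div_le_iff₀ (by linarith)]
    have : (1 + 42 / (q : ℝ)) * (q - 6) = q + 36 - 252 / q := by field_simp; ring
    rw [this]
    have : 252 / (q : ℝ) ≤ 36 := by
      rw [div_le_iff₀ (by linarith)]; linarith
    linarith

theorem pr_le (M z0 : ℕ) (hz0 : 3 ≤ z0) :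
    |∏ q ∈ M.primeFactors.filter (fun q => z0 < q), (1 - 6 / (q : ℝ))⁻¹| ≤
      ∑ s ∈ M.primeFactors.powerset, ∏ q ∈ s, (42 / (q : ℝ)) := by
  rw [Finset.abs_prod]
  calc ∏ q ∈ M.primeFactors.filter (fun q => z0 < q), |(1 - 6 / (q : ℝ))⁻¹|
      ≤ ∏ q ∈ M.primeFactors.filter (fun q => z0 < q), (1 + 42 / (q : ℝ)) := by
        apply Finset.prod_le_prod
        · intro i _; exact abs_nonneg _
        · intro q hq
          rw [mem_filter] at hq
          exact fac_le (Nat.prime_of_mem_primeFactors hq.1) (by omega)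
    _ ≤ ∏ q ∈ M.primeFactors, (1 + 42 / (q : ℝ)) := by
        apply Finset.prod_le_prod_of_subset_of_one_le (Finset.filter_subset _ _)
        · intro i _; positivity
        · intro i _ _
          have : (0 : ℝ) ≤ 42 / (i : ℝ) := by positivity
          linarith
    _ = _ := by
        rw [Finset.prod_one_add]

/-- the sum of the local factors -/
theorem prsum : ∃ C : ℝ, 0 < C ∧ ∀ z0 : ℕ, 3 ≤ z0 → ∀ Y : ℕ,
    ∑ M ∈ Icc 1 Y, |∏ q ∈ M.primeFactors.filter (fun q => z0 < q), (1 - 6 / (q : ℝ))⁻¹| ≤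
      C * Y := by
  have hsum : Summable (fun n : ℕ => 1 / (n : ℝ) ^ 2) :=
    Real.summable_one_div_nat_pow.mpr (by norm_num)
  set S := ∑' n : ℕ, 1 / (n : ℝ) ^ 2 with hS
  refine ⟨Real.exp (42 * S), Real.exp_pos _, ?_⟩
  intro z0 hz0 Y
  have h1 : ∑ M ∈ Icc 1 Y, |∏ q ∈ M.primeFactors.filter (fun q => z0 < q), (1 - 6 / (q : ℝ))⁻¹| ≤
      ∑ M ∈ Icc 1 Y, ∑ s ∈ (P Y).powerset.filter (fun s => s ⊆ M.primeFactors),
        ∏ q ∈ s, (42 / (q : ℝ)) := by
    apply Finset.sum_le_sum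
    intro M hM
    rw [mem_Icc] at hM
    refine (pr_le M z0 hz0).trans (le_of_eq ?_)
    apply Finset.sum_congr _ (fun _ _ => rfl)
    ext s
    simp only [mem_powerset, mem_filter]
    refine ⟨fun h => ⟨fun q hq => ?_, h⟩, fun h => h.2⟩
    have := h hq
    have hqp := Nat.prime_of_mem_primeFactors this
    have hqd := Nat.dvd_of_mem_primeFactors this
    simp only [P, mem_filter, mem_Icc]
    exact ⟨⟨hqp.one_lt.le, (Nat.le_of_dvd (by omega) hqd).trans hM.2⟩, hqp⟩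
  refine h1.trans ?_
  simp_rw [Finset.sum_filter]
  rw [Finset.sum_comm]
  calc ∑ s ∈ (P Y).powerset, ∑ M ∈ Icc 1 Y, (if s ⊆ M.primeFactors then
        ∏ q ∈ s, (42 / (q : ℝ)) else 0)
      ≤ ∑ s ∈ (P Y).powerset, (Y : ℝ) * ∏ q ∈ s, (42 / (q : ℝ) ^ 2) := by
        apply Finset.sum_le_sum
        intro s hs
        rw [mem_powerset] at hs
        rw [← Finset.sum_filter, Finset.sum_const, nsmul_eq_mul]
        have hpos : 0 < ∏ q ∈ s, q := by
          apply Finset.prod_pos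
          intro q hq
          have := hs hq
          simp only [P, mem_filter, mem_Icc] at this
          omega
        have hc : ((Icc 1 Y).filter (fun M => s ⊆ M.primeFactors)).card ≤ Y / ∏ q ∈ s, q := by
          rw [← Nat.Ioc_filter_dvd_card_eq_div]
          apply Finset.card_le_card
          intro M hM
          simp only [mem_filter, mem_Icc, mem_Ioc] at hM ⊢
          refine ⟨by omega, ?_⟩
          exact (Finset.prod_dvd_prod_of_subset _ _ _ hM.2).trans (Nat.prod_primeFactors_dvd M)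
        have hc' : (((Icc 1 Y).filter (fun M => s ⊆ M.primeFactors)).card : ℝ) ≤
            Y / ∏ q ∈ s, (q : ℝ) := by
          calc (((Icc 1 Y).filter (fun M => s ⊆ M.primeFactors)).card : ℝ)
              ≤ ((Y / ∏ q ∈ s, q : ℕ) : ℝ) := by exact_mod_cast hc
            _ ≤ (Y : ℝ) / ((∏ q ∈ s, q : ℕ) : ℝ) := Nat.cast_div_le
            _ = _ := by push_cast; rfl
        have e : (Y : ℝ) * ∏ q ∈ s, (42 / (q : ℝ) ^ 2) =
            (Y / ∏ q ∈ s, (q : ℝ)) * ∏ q ∈ s, (42 / (q : ℝ)) := by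
          have : ∏ q ∈ s, (42 / (q : ℝ) ^ 2) = (∏ q ∈ s, (q : ℝ))⁻¹ * ∏ q ∈ s, (42 / (q : ℝ)) := by
            rw [← Finset.prod_inv_distrib, ← Finset.prod_mul_distrib]
            apply Finset.prod_congr rfl
            intro q _
            rw [sq]; field_simp
          rw [this]; ring
        rw [e]
        apply mul_le_mul_of_nonneg_right hc'
        exact Finset.prod_nonneg (fun q _ => by positivity)
    _ = (Y : ℝ) * ∏ q ∈ P Y, (1 + 42 / (q : ℝ) ^ 2) := by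
        rw [← Finset.mul_sum, Finset.prod_one_add]
    _ ≤ (Y : ℝ) * Real.exp (42 * S) := by
        apply mul_le_mul_of_nonneg_left _ (by positivity)
        calc ∏ q ∈ P Y, (1 + 42 / (q : ℝ) ^ 2) ≤ ∏ q ∈ P Y, Real.exp (42 * (1 / (q : ℝ) ^ 2)) := by
              apply Finset.prod_le_prod
              · intro i _; positivity
              · intro i _
                have := Real.add_one_le_exp (42 * (1 / (i : ℝ) ^ 2))
                calc 1 + 42 / (i : ℝ) ^ 2 = 42 * (1 / (i : ℝ) ^ 2) + 1 := by ring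
                  _ ≤ _ := this
          _ = Real.exp (42 * ∑ q ∈ P Y, 1 / (q : ℝ) ^ 2) := by
              rw [← Real.exp_sum, Finset.mul_sum]
          _ ≤ _ := by
              apply Real.exp_le_exp.mpr
              apply mul_le_mul_of_nonneg_left _ (by norm_num)
              exact hsum.sum_le_tsum _ (fun i _ => by positivity)
    _ = _ := by ring

open Classical in
/-- few `M` have a large square divisor -/
theorem bad_card (Y B : ℕ) (hB : 0 < B) :
    (((Icc 1 Y).filter fun M => ∃ b, B < b ∧ b ^ 2 ∣ M).card : ℝ) ≤ Y / B := by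
  rcases Nat.lt_or_ge Y B with h | h
  · have : (Icc 1 Y).filter (fun M => ∃ b, B < b ∧ b ^ 2 ∣ M) = ∅ := by
      apply Finset.filter_eq_empty_iff.mpr
      rintro M hM ⟨b, hb, hd⟩
      rw [mem_Icc] at hM
      have := Nat.le_of_dvd (by omega) hd
      have : b ≤ b ^ 2 := Nat.le_self_pow (by norm_num) b
      omega
    rw [this]; simp; positivity
  · have h1 : (Icc 1 Y).filter (fun M => ∃ b, B < b ∧ b ^ 2 ∣ M) ⊆
        (Ioc B Y).biUnion (fun b => (Ioc 0 Y).filter (fun M => b ^ 2 ∣ M)) := by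
      intro M hM
      simp only [mem_filter, mem_Icc, mem_biUnion, mem_Ioc] at hM ⊢
      obtain ⟨hM1, b, hb, hd⟩ := hM
      have := Nat.le_of_dvd (by omega) hd
      have : b ≤ b ^ 2 := Nat.le_self_pow (by norm_num) b
      exact ⟨b, ⟨hb, by omega⟩, ⟨by omega, by omega⟩, hd⟩
    have h2 : ((Icc 1 Y).filter (fun M => ∃ b, B < b ∧ b ^ 2 ∣ M)).card ≤
        ∑ b ∈ Ioc B Y, Y / b ^ 2 := by
      refine (Finset.card_le_card h1).trans (Finset.card_biUnion_le.trans ?_)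
      apply Finset.sum_le_sum
      intro b _
      rw [Nat.Ioc_filter_dvd_card_eq_div]
    calc (((Icc 1 Y).filter fun M => ∃ b, B < b ∧ b ^ 2 ∣ M).card : ℝ)
        ≤ ((∑ b ∈ Ioc B Y, Y / b ^ 2 : ℕ) : ℝ) := by exact_mod_cast h2
      _ ≤ ∑ b ∈ Ioc B Y, (Y : ℝ) * ((b : ℝ) ^ 2)⁻¹ := by
          push_cast
          apply Finset.sum_le_sum
          intro b _
          refine (Nat.cast_div_le).trans ?_
          push_cast
          rw [div_eq_mul_inv]
      _ = (Y : ℝ) * ∑ b ∈ Ioc B Y, ((b : ℝ) ^ 2)⁻¹ := by rw [Finset.mul_sum]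
      _ ≤ (Y : ℝ) * ((B : ℝ)⁻¹ - (Y : ℝ)⁻¹) :=
          mul_le_mul_of_nonneg_left (sum_Ioc_inv_sq_le_sub hB.ne' h) (by positivity)
      _ ≤ (Y : ℝ) * (B : ℝ)⁻¹ := by
          apply mul_le_mul_of_nonneg_left _ (by positivity)
          have : (0 : ℝ) ≤ (Y : ℝ)⁻¹ := by positivity
          linarith
      _ = _ := (div_eq_mul_inv _ _).symm

theorem rt_le (a q : ℕ) : rt a q ≤ q := by
  unfold rt
  exact (Finset.card_filter_le _ _).trans (by simp)

theorem rF_le (q : ℕ) : rF q ≤ q := by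
  unfold rF
  exact (Finset.card_filter_le _ _).trans (by simp)

theorem fac_nonneg {r q : ℕ} (h : r ≤ q) : 0 ≤ 1 - (r : ℝ) / q := by
  rcases Nat.eq_zero_or_pos q with rfl | hq
  · simp
  · have : (r : ℝ) / q ≤ 1 := by
      rw [div_le_one (by exact_mod_cast hq)]; exact_mod_cast h
    linarith

theorem VF_nonneg (z : ℕ) : 0 ≤ VF z := Finset.prod_nonneg (fun _ _ => fac_nonneg (rF_le _))

theorem Va_nonneg (a z : ℕ) : 0 ≤ Va a z := Finset.prod_nonneg (fun _ _ => fac_nonneg (rt_le a _))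

open Classical in
/-- bound of the sifted set for one `M` -/
theorem point {C1 : ℝ} {z0 K : ℕ} (hC1 : 0 < C1)
    (hONE : ∀ (a : ℕ) (j : Bool), (a = 1 ∨ a = 3) → ∀ M1 M2 V : ℕ, Squarefree M1 → 0 < M2 →
      Nat.Coprime M1 M2 → ∀ z z' : ℕ, z0 ≤ z → z ≤ z' →
      ((Sset a z z' z0 V j (M1 * M2)).card : ℝ) ≤
      C1 * (2 * V + 1) * (VF z * Va a z') *
          ∏ q ∈ (M1 * M2).primeFactors.filter (fun q => z0 < q), (1 - 6 / (q : ℝ))⁻¹ +
        C1 * (z' : ℝ) ^ K * (M2 * (M1.divisors.card : ℝ) ^ 3 * Real.sqrt M1 *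
            (Real.log ((M1 * M2 : ℕ) : ℝ) + 2) ^ 2 +
          (2 * V + 1) * ((M1 * M2).divisors.card : ℝ) / ((M1 * M2 : ℕ) : ℝ)))
    {a : ℕ} (j : Bool) (ha : a = 1 ∨ a = 3) {z z' N V B : ℕ} (hz : z0 ≤ z) (hzz : z ≤ z')
    (hN : 0 < N)
    {D L : ℝ} (hD : ∀ m, 1 ≤ m → m ≤ Nat.sqrt (2 * N) → (m.divisors.card : ℝ) ≤ D)
    (hL : Real.log (Nat.sqrt (2 * N) : ℕ) ≤ L) {M : ℕ} (hM : M ∈ Rg N) :
    ((Sset a z z' z0 V j M).card : ℝ) ≤
      (if ∃ b, B < b ∧ b ^ 2 ∣ M then (2 * V + 1 : ℝ) else 0) +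
      C1 * (2 * V + 1) * (VF z * Va a z') *
          |∏ q ∈ M.primeFactors.filter (fun q => z0 < q), (1 - 6 / (q : ℝ))⁻¹| +
        C1 * (z' : ℝ) ^ K * ((B : ℝ) ^ 3 * D ^ 3 * Real.sqrt (Nat.sqrt (2 * N) : ℕ) *
            (L + 2) ^ 2 + (2 * V + 1) * D * (2 / Real.sqrt N)) := by
  simp only [Rg, mem_filter, mem_Icc] at hM
  obtain ⟨⟨hM1, hM2⟩, hM3⟩ := hM
  have hVF := VF_nonneg z
  have hVa := Va_nonneg a z'
  have hD1 : 1 ≤ D := by
    have := hD 1 le_rfl (hM1.trans hM2)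
    simpa using this
  have hL0 : 0 ≤ L := le_trans (Real.log_natCast_nonneg _) hL
  have hmain : 0 ≤ C1 * (2 * V + 1) * (VF z * Va a z') *
          |∏ q ∈ M.primeFactors.filter (fun q => z0 < q), (1 - 6 / (q : ℝ))⁻¹| := by
    positivity
  have herr : 0 ≤ C1 * (z' : ℝ) ^ K * ((B : ℝ) ^ 3 * D ^ 3 * Real.sqrt (Nat.sqrt (2 * N) : ℕ) *
            (L + 2) ^ 2 + (2 * V + 1) * D * (2 / Real.sqrt N)) := by
    positivity
  by_cases hb : ∃ b, B < b ∧ b ^ 2 ∣ M
  · rw [if_pos hb]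
    have h1 : (Sset a z z' z0 V j M).card ≤ 2 * V + 1 :=
      (Finset.card_filter_le _ _).trans (Om_card M V)
    have h2 : ((Sset a z z' z0 V j M).card : ℝ) ≤ 2 * V + 1 := by exact_mod_cast h1
    linarith
  · rw [if_neg hb]
    obtain ⟨b, M1, M2, hb0, hM20, hsq, hcop, hMM, hbM, hM2b⟩ := decomp M hM1
    have hbB : b ≤ B := by
      by_contra h
      exact hb ⟨b, by omega, hbM⟩
    have hM2B : M2 ≤ B ^ 3 := hM2b.trans (Nat.pow_le_pow_left hbB 3)
    have h := hONE a j ha M1 M2 V hsq hM20 hcop z z' hz hzz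
    rw [hMM] at h
    have hM10 : 1 ≤ M1 := Nat.one_le_iff_ne_zero.mpr hsq.ne_zero
    have hM1Y : M1 ≤ Nat.sqrt (2 * N) := by
      refine le_trans ?_ hM2
      rw [← hMM]; exact Nat.le_mul_of_pos_right _ hM20
    have e1 : (M2 : ℝ) * (M1.divisors.card : ℝ) ^ 3 * Real.sqrt M1 *
            (Real.log ((M : ℕ) : ℝ) + 2) ^ 2 ≤
          (B : ℝ) ^ 3 * D ^ 3 * Real.sqrt (Nat.sqrt (2 * N) : ℕ) * (L + 2) ^ 2 := by
      have f1 : (M2 : ℝ) ≤ (B : ℝ) ^ 3 := by exact_mod_cast hM2B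
      have f2 : (M1.divisors.card : ℝ) ^ 3 ≤ D ^ 3 :=
        pow_le_pow_left₀ (by positivity) (hD M1 hM10 hM1Y) 3
      have f3 : Real.sqrt M1 ≤ Real.sqrt (Nat.sqrt (2 * N) : ℕ) :=
        Real.sqrt_le_sqrt (by exact_mod_cast hM1Y)
      have f4 : (Real.log ((M : ℕ) : ℝ) + 2) ^ 2 ≤ (L + 2) ^ 2 := by
        apply pow_le_pow_left₀
        · have := Real.log_natCast_nonneg M; linarith
        · have : Real.log (M : ℝ) ≤ Real.log (Nat.sqrt (2 * N) : ℕ) :=
            Real.log_le_log (by exact_mod_cast hM1) (by exact_mod_cast hM2)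
          linarith
      gcongr
    have e2 : (2 * V + 1) * (M.divisors.card : ℝ) / ((M : ℕ) : ℝ) ≤
        (2 * V + 1) * D * (2 / Real.sqrt N) := by
      have f1 : (M.divisors.card : ℝ) ≤ D := hD M hM1 hM2
      have hsN : 0 < Real.sqrt N := Real.sqrt_pos.mpr (by exact_mod_cast hN)
      have hMpos : (0 : ℝ) < M := by exact_mod_cast hM1
      have f2 : 1 / (M : ℝ) ≤ 2 / Real.sqrt N := by
        rw [div_le_div_iff₀ hMpos hsN]
        have : Real.sqrt N ≤ 2 * M := by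
          rw [Real.sqrt_le_left (by positivity)]
          have : (N : ℝ) ≤ 4 * M ^ 2 := by exact_mod_cast hM3.le
          nlinarith
        linarith
      calc (2 * V + 1) * (M.divisors.card : ℝ) / ((M : ℕ) : ℝ)
          = (2 * V + 1) * (M.divisors.card : ℝ) * (1 / M) := by ring
        _ ≤ _ := by gcongr
    have e3 : C1 * (2 * V + 1) * (VF z * Va a z') *
          ∏ q ∈ M.primeFactors.filter (fun q => z0 < q), (1 - 6 / (q : ℝ))⁻¹ ≤
        C1 * (2 * V + 1) * (VF z * Va a z') *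
          |∏ q ∈ M.primeFactors.filter (fun q => z0 < q), (1 - 6 / (q : ℝ))⁻¹| := by
      apply mul_le_mul_of_nonneg_left (le_abs_self _)
      positivity
    have e4 : C1 * (z' : ℝ) ^ K * (M2 * (M1.divisors.card : ℝ) ^ 3 * Real.sqrt M1 *
            (Real.log ((M : ℕ) : ℝ) + 2) ^ 2 +
          (2 * V + 1) * (M.divisors.card : ℝ) / ((M : ℕ) : ℝ)) ≤
        C1 * (z' : ℝ) ^ K * ((B : ℝ) ^ 3 * D ^ 3 * Real.sqrt (Nat.sqrt (2 * N) : ℕ) *
            (L + 2) ^ 2 + (2 * V + 1) * D * (2 / Real.sqrt N)) :=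
      mul_le_mul_of_nonneg_left (add_le_add e1 e2) (by positivity)
    linarith

open Classical in
/-- the sum over `M` and `j` -/
theorem total {C1 C2 : ℝ} {z0 K : ℕ} (hC1 : 0 < C1)
    (hONE : ∀ (a : ℕ) (j : Bool), (a = 1 ∨ a = 3) → ∀ M1 M2 V : ℕ, Squarefree M1 → 0 < M2 →
      Nat.Coprime M1 M2 → ∀ z z' : ℕ, z0 ≤ z → z ≤ z' →
      ((Sset a z z' z0 V j (M1 * M2)).card : ℝ) ≤
      C1 * (2 * V + 1) * (VF z * Va a z') *
          ∏ q ∈ (M1 * M2).primeFactors.filter (fun q => z0 < q), (1 - 6 / (q : ℝ))⁻¹ +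
        C1 * (z' : ℝ) ^ K * (M2 * (M1.divisors.card : ℝ) ^ 3 * Real.sqrt M1 *
            (Real.log ((M1 * M2 : ℕ) : ℝ) + 2) ^ 2 +
          (2 * V + 1) * ((M1 * M2).divisors.card : ℝ) / ((M1 * M2 : ℕ) : ℝ)))
    (hpr : ∀ Y : ℕ, ∑ M ∈ Icc 1 Y,
      |∏ q ∈ M.primeFactors.filter (fun q => z0 < q), (1 - 6 / (q : ℝ))⁻¹| ≤ C2 * Y)
    {a : ℕ} (ha : a = 1 ∨ a = 3) {z z' N V B : ℕ} (hz : z0 ≤ z) (hzz : z ≤ z')
    (hN : 0 < N) (hB : 0 < B)
    {D L : ℝ} (hD : ∀ m, 1 ≤ m → m ≤ Nat.sqrt (2 * N) → (m.divisors.card : ℝ) ≤ D)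
    (hL : Real.log (Nat.sqrt (2 * N) : ℕ) ≤ L) :
    ((∑ j : Bool, ∑ M ∈ Rg N, (Sset a z z' z0 V j M).card : ℕ) : ℝ) ≤
      2 * ((2 * V + 1) * ((Nat.sqrt (2 * N) : ℕ) / B) +
      C1 * (2 * V + 1) * (VF z * Va a z') * (C2 * (Nat.sqrt (2 * N) : ℕ)) +
        (Nat.sqrt (2 * N) : ℕ) * (C1 * (z' : ℝ) ^ K * ((B : ℝ) ^ 3 * D ^ 3 *
          Real.sqrt (Nat.sqrt (2 * N) : ℕ) *
            (L + 2) ^ 2 + (2 * V + 1) * D * (2 / Real.sqrt N)))) := by
  set Y := Nat.sqrt (2 * N) with hY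
  set E := C1 * (z' : ℝ) ^ K * ((B : ℝ) ^ 3 * D ^ 3 * Real.sqrt (Y : ℕ) *
            (L + 2) ^ 2 + (2 * V + 1) * D * (2 / Real.sqrt N)) with hE
  set pr : ℕ → ℝ := fun M => |∏ q ∈ M.primeFactors.filter (fun q => z0 < q),
    (1 - 6 / (q : ℝ))⁻¹| with hprdef
  have hVF := VF_nonneg z
  have hVa := Va_nonneg a z'
  have hY1 : 1 ≤ Y := by
    rw [hY, Nat.le_sqrt']; omega
  have hD1 : 1 ≤ D := by
    have := hD 1 le_rfl hY1
    simpa using this
  have hL0 : 0 ≤ L := le_trans (Real.log_natCast_nonneg _) hL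
  have hE0 : 0 ≤ E := by rw [hE]; positivity
  have hsub : Rg N ⊆ Icc 1 Y := Finset.filter_subset _ _
  have hj : ∀ j : Bool, ∑ M ∈ Rg N, ((Sset a z z' z0 V j M).card : ℝ) ≤
      (2 * V + 1) * (Y / B) + C1 * (2 * V + 1) * (VF z * Va a z') * (C2 * Y) + Y * E := by
    intro j
    calc ∑ M ∈ Rg N, ((Sset a z z' z0 V j M).card : ℝ)
        ≤ ∑ M ∈ Rg N, ((if ∃ b, B < b ∧ b ^ 2 ∣ M then (2 * V + 1 : ℝ) else 0) +
            C1 * (2 * V + 1) * (VF z * Va a z') * pr M + E) := by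
          apply Finset.sum_le_sum
          intro M hM
          exact point hC1 hONE j ha hz hzz hN hD hL hM
      _ ≤ ∑ M ∈ Icc 1 Y, ((if ∃ b, B < b ∧ b ^ 2 ∣ M then (2 * V + 1 : ℝ) else 0) +
            C1 * (2 * V + 1) * (VF z * Va a z') * pr M + E) := by
          apply Finset.sum_le_sum_of_subset_of_nonneg hsub
          intro M _ _
          have : 0 ≤ pr M := abs_nonneg _
          have h0 : (0 : ℝ) ≤ (if ∃ b, B < b ∧ b ^ 2 ∣ M then (2 * V + 1 : ℝ) else 0) := by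
            split_ifs <;> positivity
          positivity
      _ = (2 * V + 1) * (((Icc 1 Y).filter fun M => ∃ b, B < b ∧ b ^ 2 ∣ M).card : ℝ) +
            C1 * (2 * V + 1) * (VF z * Va a z') * (∑ M ∈ Icc 1 Y, pr M) + Y * E := by
          rw [Finset.sum_add_distrib, Finset.sum_add_distrib, ← Finset.sum_filter,
            Finset.sum_const, ← Finset.mul_sum, Finset.sum_const]
          simp only [nsmul_eq_mul, Nat.card_Icc, Nat.add_sub_cancel]
          ring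
      _ ≤ _ := by
          have h1 := bad_card Y B hB
          have h2 := hpr Y
          gcongr
  push_cast
  rw [Fintype.sum_bool]
  have h1 := hj true
  have h2 := hj false
  linarith

end Pool.Agent.D0H98.LP
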