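import Pool.Agent.D0H98.LP.Beta2

/-! BETA, final part. -/

set_option autoImplicit false

namespace Pool.Agent.D0H98.LP

open Finset Filter Pool.Agent.D0H41.LP

theorem Va_le (a z : ℕ) : Va a z ≤ ∏ p ∈ (P z).filter (fun p => 2 < p), (1 - (rt a p : ℝ) / p) := by
  unfold Va
  apply Finset.prod_le_prod_of_subset_of_le_one (Finset.filter_subset _ _)
  · intro i _; exact fac_nonneg (rt_le a i)
  · intro i _ _
    have : (0 : ℝ) ≤ (rt a i : ℝ) / i := by positivity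
    linarith

theorem half_floor {t : ℝ} (ht : 1 ≤ t) : t / 2 ≤ (⌊t⌋₊ : ℝ) := by
  have h1 := Nat.lt_floor_add_one t
  have h2 : (1 : ℝ) ≤ ⌊t⌋₊ := by
    exact_mod_cast Nat.one_le_floor_iff t |>.mpr ht
  linarith

theorem t_BETA : S_REP → S_ONE → S_MERP → S_BETA := by
  classical
  intro hREP hONE hMERP
  obtain ⟨C1, z0, K, hC1, hz0, hONE⟩ := hONE
  obtain ⟨C3, hC3, hMER1, hMER2⟩ := hMERP
  obtain ⟨C2, hC2, hprs⟩ := prsum
  obtain ⟨CD, hCD, hdiv⟩ := Pool.Agent.H369R2.divisor_bound (1 / 1000) (by norm_num)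
  have hONE' : ∀ (a : ℕ) (j : Bool), (a = 1 ∨ a = 3) → ∀ M1 M2 V : ℕ, Squarefree M1 → 0 < M2 →
      Nat.Coprime M1 M2 → ∀ z z' : ℕ, z0 ≤ z → z ≤ z' →
      ((Sset a z z' z0 V j (M1 * M2)).card : ℝ) ≤
      C1 * (2 * V + 1) * (VF z * Va a z') *
          ∏ q ∈ (M1 * M2).primeFactors.filter (fun q => z0 < q), (1 - 6 / (q : ℝ))⁻¹ +
        C1 * (z' : ℝ) ^ K * (M2 * (M1.divisors.card : ℝ) ^ 3 * Real.sqrt M1 *
            (Real.log ((M1 * M2 : ℕ) : ℝ) + 2) ^ 2 +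
          (2 * V + 1) * ((M1 * M2).divisors.card : ℝ) / ((M1 * M2 : ℕ) : ℝ)) := by
    intro a j ha M1 M2 V h1 h2 h3 z z' h4 h5
    exact hONE a j ha M1 M2 V h1 h2 h3 z z' h4 h5
  set η : ℝ := 1 / (50 * (K + 1)) with hη
  have hK0 : (0 : ℝ) ≤ K := Nat.cast_nonneg K
  have hη0 : 0 < η := by rw [hη]; positivity
  have hη1 : η ≤ 1 / 50 := by
    rw [hη]
    apply one_div_le_one_div_of_le (by norm_num)
    linarith
  have hηK : η * K ≤ 1 / 50 := by
    rw [hη, div_mul_eq_mul_div, one_mul, div_le_div_iff₀ (by positivity) (by norm_num)]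
    linarith
  have hlim : Tendsto (fun x : ℕ => (x : ℝ)) atTop atTop := tendsto_natCast_atTop_atTop
  have ev1 : ∀ᶠ x : ℕ in atTop, (Real.log x + 2) ^ 2 ≤ (x : ℝ) ^ (1 / 1000 : ℝ) := by
    have h1 : (fun x : ℝ => Real.log x + 2) =o[atTop] (fun x : ℝ => x ^ (1 / 2000 : ℝ)) := by
      apply Asymptotics.IsLittleO.add
      · exact isLittleO_log_rpow_atTop (by norm_num)
      · exact (Asymptotics.isLittleO_const_left_of_ne (by norm_num)).mpr
          (tendsto_norm_atTop_atTop.comp (tendsto_rpow_atTop (by norm_num)))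
    have h2 := h1.bound (c := 1) (by norm_num)
    filter_upwards [hlim.eventually h2, hlim.eventually_ge_atTop 1] with x hx hx1
    rw [one_mul, Real.norm_eq_abs, Real.norm_eq_abs, abs_of_nonneg (by
      have := Real.log_nonneg hx1; linarith), abs_of_nonneg (by positivity)] at hx
    calc (Real.log x + 2) ^ 2 ≤ ((x : ℝ) ^ (1 / 2000 : ℝ)) ^ 2 := by
          apply pow_le_pow_left₀ _ hx
          have := Real.log_nonneg hx1; linarith
      _ = (x : ℝ) ^ (1 / 1000 : ℝ) := by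
          rw [← Real.rpow_natCast, ← Real.rpow_mul (by positivity)]; norm_num
  have ev2 : ∀ᶠ x : ℕ in atTop, (Real.log x) ^ 3 ≤ (x : ℝ) ^ (1 / 150 : ℝ) := by
    have h1 : (fun x : ℝ => Real.log x) =o[atTop] (fun x : ℝ => x ^ (1 / 450 : ℝ)) :=
      isLittleO_log_rpow_atTop (by norm_num)
    have h2 := h1.bound (c := 1) (by norm_num)
    filter_upwards [hlim.eventually h2, hlim.eventually_ge_atTop 1] with x hx hx1
    rw [one_mul, Real.norm_eq_abs, Real.norm_eq_abs, abs_of_nonneg (Real.log_nonneg hx1),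
      abs_of_nonneg (by positivity)] at hx
    calc (Real.log x) ^ 3 ≤ ((x : ℝ) ^ (1 / 450 : ℝ)) ^ 3 :=
          pow_le_pow_left₀ (Real.log_nonneg hx1) hx 3
      _ = (x : ℝ) ^ (1 / 150 : ℝ) := by
          rw [← Real.rpow_natCast, ← Real.rpow_mul (by positivity)]; norm_num
  have ev3 : ∀ᶠ x : ℕ in atTop, 2 ≤ (x : ℝ) ^ (η / 2) :=
    ((tendsto_rpow_atTop (by positivity)).comp hlim).eventually_ge_atTop 2
  have ev4 : ∀ᶠ x : ℕ in atTop, (10 : ℝ) ≤ (x : ℝ) := hlim.eventually_ge_atTop 10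
  obtain ⟨x₀, hx₀⟩ := eventually_atTop.mp (ev1.and (ev2.and (ev3.and ev4)))
  refine ⟨2 * (28 * C3 + 28 * C1 * C2 * C3 / η + (2 * C1 * CD ^ 3 + 27 * C1 * CD) * C3), η, z0,
    by positivity, hη0, x₀, ?_⟩
  intro x hx a ha z hz hzx N hN1 hN2
  obtain ⟨A1, A2, A3, A4⟩ := hx₀ x hx
  set X : ℝ := (x : ℝ) with hX
  have hX0 : 0 < X := by linarith
  have hX1 : 1 ≤ X := by linarith
  have hlogX : 0 < Real.log X := Real.log_pos (by linarith)
  have hlogX1 : 1 ≤ Real.log X := by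
    rw [← Real.log_exp 1]
    apply Real.log_le_log (Real.exp_pos _)
    have := Real.exp_one_lt_d9
    linarith
  -- `N`
  have hn1 : X ^ (49 / 50 : ℝ) ≤ N := by
    refine le_trans ?_ hN1
    apply Real.rpow_le_rpow_of_exponent_le hX1
    linarith
  have hn2 : (N : ℝ) ≤ X ^ (51 / 50 : ℝ) := by
    refine hN2.trans ?_
    apply Real.rpow_le_rpow_of_exponent_le hX1
    linarith
  have h3X : (3 : ℝ) ≤ X ^ (49 / 50 : ℝ) := by
    calc (3 : ℝ) = ((3 : ℝ) ^ (2 : ℝ)) ^ (1 / 2 : ℝ) := by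
          rw [← Real.rpow_mul (by norm_num)]; norm_num
      _ ≤ X ^ (1 / 2 : ℝ) := by
          apply Real.rpow_le_rpow (by positivity) _ (by norm_num)
          norm_num; linarith
      _ ≤ X ^ (49 / 50 : ℝ) := Real.rpow_le_rpow_of_exponent_le hX1 (by norm_num)
  have hN3 : 3 ≤ N := by
    have : (3 : ℝ) ≤ N := h3X.trans hn1
    exact_mod_cast this
  have hN0 : 0 < N := by omega
  have hNr0 : (0 : ℝ) < N := by exact_mod_cast hN0
  set r := Real.sqrt N with hr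
  have hr0 : 0 < r := Real.sqrt_pos.mpr hNr0
  have hrr : r * r = N := Real.mul_self_sqrt hNr0.le
  have hr1 : X ^ (49 / 100 : ℝ) ≤ r := by
    rw [hr, Real.le_sqrt (by positivity) hNr0.le, ← Real.rpow_natCast, ← Real.rpow_mul hX0.le]
    norm_num
    exact hn1
  have hr2 : r ≤ X ^ (51 / 100 : ℝ) := by
    rw [hr, Real.sqrt_le_left (by positivity), ← Real.rpow_natCast, ← Real.rpow_mul hX0.le]
    norm_num
    exact hn2
  have hrX : r ≤ X := by
    refine hr2.trans ?_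
    calc X ^ (51 / 100 : ℝ) ≤ X ^ (1 : ℝ) :=
          Real.rpow_le_rpow_of_exponent_le hX1 (by norm_num)
      _ = X := Real.rpow_one _
  set u := Real.sqrt r with hu
  have hu0 : 0 < u := Real.sqrt_pos.mpr hr0
  have huu : u * u = r := Real.mul_self_sqrt hr0.le
  have hu2 : u ≤ X ^ (51 / 200 : ℝ) := by
    rw [hu, Real.sqrt_le_left (by positivity), ← Real.rpow_natCast, ← Real.rpow_mul hX0.le]
    norm_num
    exact hr2
  have hu3 : u ^ 3 ≤ X ^ (153 / 200 : ℝ) := by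
    calc u ^ 3 ≤ (X ^ (51 / 200 : ℝ)) ^ 3 := pow_le_pow_left₀ hu0.le hu2 3
      _ = X ^ (153 / 200 : ℝ) := by
          rw [← Real.rpow_natCast, ← Real.rpow_mul hX0.le]; norm_num
  -- `Y`
  set Y := Nat.sqrt (2 * N) with hY
  have hYY : (Y : ℝ) * Y ≤ 2 * N := by
    have : Y * Y ≤ 2 * N := Nat.sqrt_le _
    exact_mod_cast this
  have hY0 : (0 : ℝ) ≤ Y := Nat.cast_nonneg Y
  have hYr : (Y : ℝ) ≤ 3 / 2 * r := by
    apply nonneg_le_nonneg_of_sq_le_sq (by positivity)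
    calc (Y : ℝ) * Y ≤ 2 * N := hYY
      _ = 2 * (r * r) := by rw [hrr]
      _ ≤ 3 / 2 * r * (3 / 2 * r) := by linarith only [mul_pos hr0 hr0]
  have hYs : Real.sqrt Y ≤ 5 / 4 * u := by
    rw [Real.sqrt_le_left (by positivity)]
    calc (Y : ℝ) ≤ 3 / 2 * r := hYr
      _ = 3 / 2 * (u * u) := by rw [huu]
      _ ≤ (5 / 4 * u) ^ 2 := by linarith only [mul_pos hu0 hu0]
  have hYX : (Y : ℝ) ≤ X := by
    refine hYr.trans ?_
    have e1 : X ^ (51 / 100 : ℝ) * X ^ (49 / 100 : ℝ) = X := by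
      rw [← Real.rpow_add hX0]; norm_num
    have e2 : (3 / 2 : ℝ) ≤ X ^ (49 / 100 : ℝ) := by
      have e3 : X ^ (49 / 50 : ℝ) = X ^ (49 / 100 : ℝ) * X ^ (49 / 100 : ℝ) := by
        rw [← Real.rpow_add hX0]; norm_num
      rw [e3] at h3X
      by_contra hcon
      push Not at hcon
      have e4 : 0 < X ^ (49 / 100 : ℝ) := by positivity
      have e5 := mul_self_lt_mul_self e4.le hcon
      norm_num at e5
      linarith
    calc 3 / 2 * r ≤ X ^ (49 / 100 : ℝ) * X ^ (51 / 100 : ℝ) := by gcongr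
      _ = X := by rw [mul_comm]; exact e1
  have hY1 : 1 ≤ Y := by
    rw [hY, Nat.le_sqrt']; omega
  have hY1r : (1 : ℝ) ≤ Y := by exact_mod_cast hY1
  -- `B`
  set B := ⌊X ^ (1 / 150 : ℝ)⌋₊ with hBdef
  have hXB1 : 1 ≤ X ^ (1 / 150 : ℝ) := Real.one_le_rpow hX1 (by norm_num)
  have hB1 : X ^ (1 / 150 : ℝ) / 2 ≤ B := half_floor hXB1
  have hB2 : (B : ℝ) ≤ X ^ (1 / 150 : ℝ) := Nat.floor_le (by positivity)
  have hB0 : 0 < B := Nat.floor_pos.mpr hXB1
  have hB0r : (0 : ℝ) < B := by exact_mod_cast hB0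
  -- `z'`
  set z' := ⌊X ^ η⌋₊ with hz'def
  have hXz1 : 1 ≤ X ^ η := Real.one_le_rpow hX1 hη0.le
  have hz'1 : X ^ η / 2 ≤ z' := half_floor hXz1
  have hz'2 : (z' : ℝ) ≤ X ^ η := Nat.floor_le (by positivity)
  have hzz : z ≤ z' := Nat.le_floor hzx
  have hz2 : 2 ≤ z := by omega
  have hz'3 : X ^ (η / 2) ≤ z' := by
    refine le_trans ?_ hz'1
    have e1 : X ^ η = X ^ (η / 2) * X ^ (η / 2) := by
      rw [← Real.rpow_add hX0]; norm_num
    rw [e1]
    have h0 : 0 < X ^ (η / 2) := by positivity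
    have := mul_le_mul_of_nonneg_left A3 h0.le
    linarith only [this]
  have hlogz' : η / 2 * Real.log X ≤ Real.log z' := by
    rw [← Real.log_rpow hX0]
    exact Real.log_le_log (by positivity) hz'3
  have hz'N : z' ≤ N := by
    have : (z' : ℝ) ≤ N := by
      refine hz'2.trans (le_trans ?_ hn1)
      apply Real.rpow_le_rpow_of_exponent_le hX1
      linarith
    exact_mod_cast this
  -- `V`
  set V := ⌈2 * (X + 3) / r⌉₊ with hVdef
  have hV1 : 2 * (X + 3) ≤ V * r := by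
    have := Nat.le_ceil (2 * (X + 3) / r)
    rwa [div_le_iff₀ hr0] at this
  have hW : (2 * V + 1 : ℝ) ≤ 9 * X / r := by
    have h1 : (V : ℝ) < 2 * (X + 3) / r + 1 := Nat.ceil_lt_add_one (by positivity)
    rw [le_div_iff₀ hr0]
    have h2 : (V : ℝ) * r < 2 * (X + 3) + r := by
      have := mul_lt_mul_of_pos_right h1 hr0
      rwa [add_mul, div_mul_cancel₀ _ hr0.ne', one_mul] at this
    linarith only [h2, hrX, A4, hX0]
  have hW0 : (0 : ℝ) ≤ 2 * V + 1 := by positivity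
  have hWY : (2 * V + 1 : ℝ) * Y ≤ 14 * X := by
    calc (2 * V + 1 : ℝ) * Y ≤ (9 * X / r) * (3 / 2 * r) :=
          mul_le_mul hW hYr hY0 (by positivity)
      _ = 27 / 2 * X := by field_simp; norm_num
      _ ≤ 14 * X := by linarith
  -- divisor bound
  set D := CD * X ^ (1 / 1000 : ℝ) with hDdef
  have hD : ∀ m, 1 ≤ m → m ≤ Y → (m.divisors.card : ℝ) ≤ D := by
    intro m hm1 hm2
    refine (hdiv m hm1).trans ?_
    rw [hDdef]
    apply mul_le_mul_of_nonneg_left _ hCD.le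
    apply Real.rpow_le_rpow (by positivity) _ (by norm_num)
    have : (m : ℝ) ≤ Y := by exact_mod_cast hm2
    exact this.trans hYX
  have hL : Real.log (Y : ℕ) ≤ Real.log X := Real.log_le_log (by linarith) hYX
  have hcov := cover (x := x) (z := z) (z' := z') (z0 := z0) (V := V) hREP ha hN3 hz'N hV1
  have htot := total (C1 := C1) (C2 := C2) (z0 := z0) (K := K) (V := V) hC1 hONE' (hprs z0 hz0) ha hz
    hzz hN0 hB0 hD hL
  have hcov' : ((((Icc 1 x ×ˢ Ioc N (2 * N)).filter fun t => Sft z t.1 ∧ t.2.Prime ∧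
      t.2 ∣ t.1 ^ 2 + a).card : ℕ) : ℝ) ≤
      ((∑ j : Bool, ∑ M ∈ Rg N, (Sset a z z' z0 V j M).card : ℕ) : ℝ) := by
    exact_mod_cast hcov
  refine hcov'.trans (htot.trans ?_)
  rw [← hr]
  -- the three terms
  have hVF0 := VF_nonneg z
  have hVa0 := Va_nonneg a z'
  have T1 : (2 * V + 1 : ℝ) * (Y / B) ≤ 28 * X ^ (149 / 150 : ℝ) := by
    calc (2 * V + 1 : ℝ) * (Y / B) = ((2 * V + 1) * Y) / B := by ring
      _ ≤ 14 * X / (X ^ (1 / 150 : ℝ) / 2) := by
          apply div_le_div₀ (by positivity) hWY (by positivity) hB1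
      _ = 28 * (X ^ (1 : ℝ) / X ^ (1 / 150 : ℝ)) := by
          rw [Real.rpow_one]; field_simp; norm_num
      _ = 28 * X ^ (149 / 150 : ℝ) := by
          rw [← Real.rpow_sub hX0]; norm_num
  have hVa : Va a z' ≤ 2 * C3 / (η * Real.log X) := by
    have h1 := hMER1 a ha 2 z' le_rfl (hz2.trans hzz)
    refine (Va_le a z').trans (h1.trans ?_)
    have hl2 : Real.log 2 ≤ 1 := by
      have := Real.log_two_lt_d9; linarith
    have hl20 : 0 ≤ Real.log 2 := Real.log_nonneg (by norm_num)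
    have hp : 0 < η / 2 * Real.log X := by positivity
    calc C3 * (Real.log (2 : ℕ) / Real.log z') ≤ C3 * (1 / (η / 2 * Real.log X)) := by
          apply mul_le_mul_of_nonneg_left _ (by linarith)
          push_cast
          exact div_le_div₀ (by norm_num) hl2 hp hlogz'
      _ = 2 * C3 / (η * Real.log X) := by field_simp
  have T2 : C1 * (2 * V + 1) * (VF z * Va a z') * (C2 * (Y : ℕ)) ≤
      28 * C1 * C2 * C3 / η * (X * VF z / Real.log X) := by
    calc C1 * (2 * V + 1) * (VF z * Va a z') * (C2 * (Y : ℕ))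
        = C1 * C2 * VF z * Va a z' * ((2 * V + 1) * Y) := by ring
      _ ≤ C1 * C2 * VF z * (2 * C3 / (η * Real.log X)) * (14 * X) := by gcongr
      _ = _ := by field_simp; ring
  have hzK : (z' : ℝ) ^ K ≤ X ^ (1 / 50 : ℝ) := by
    calc (z' : ℝ) ^ K ≤ (X ^ η) ^ K := pow_le_pow_left₀ (by positivity) hz'2 K
      _ = X ^ (η * K) := by rw [← Real.rpow_natCast, ← Real.rpow_mul hX0.le]
      _ ≤ _ := Real.rpow_le_rpow_of_exponent_le hX1 hηK
  have hB3 : (B : ℝ) ^ 3 ≤ X ^ (1 / 50 : ℝ) := by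
    calc (B : ℝ) ^ 3 ≤ (X ^ (1 / 150 : ℝ)) ^ 3 := pow_le_pow_left₀ (by positivity) hB2 3
      _ = _ := by rw [← Real.rpow_natCast, ← Real.rpow_mul hX0.le]; norm_num
  have hD3 : D ^ 3 = CD ^ 3 * X ^ (3 / 1000 : ℝ) := by
    rw [hDdef, mul_pow, ← Real.rpow_natCast (X ^ (1 / 1000 : ℝ)), ← Real.rpow_mul hX0.le]
    norm_num
  have hD0 : 0 < D := by rw [hDdef]; positivity
  have T3a : (Y : ℝ) * (C1 * (z' : ℝ) ^ K * ((B : ℝ) ^ 3 * D ^ 3 *
          Real.sqrt (Y : ℕ) * (Real.log X + 2) ^ 2)) ≤ 2 * C1 * CD ^ 3 * X ^ (149 / 150 : ℝ) := by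
    have hD30 : 0 ≤ D ^ 3 := by positivity
    have hYY' : (Y : ℝ) * Real.sqrt (Y : ℕ) ≤ 2 * X ^ (153 / 200 : ℝ) := by
      calc (Y : ℝ) * Real.sqrt (Y : ℕ) ≤ (3 / 2 * r) * (5 / 4 * u) :=
            mul_le_mul hYr hYs (Real.sqrt_nonneg _) (by positivity)
        _ = 15 / 8 * u ^ 3 := by rw [← huu]; ring
        _ ≤ 2 * u ^ 3 := by linarith only [pow_pos hu0 3]
        _ ≤ _ := by linarith only [hu3]
    calc (Y : ℝ) * (C1 * (z' : ℝ) ^ K * ((B : ℝ) ^ 3 * D ^ 3 *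
          Real.sqrt (Y : ℕ) * (Real.log X + 2) ^ 2))
        = C1 * ((Y : ℝ) * Real.sqrt (Y : ℕ)) * (z' : ℝ) ^ K * (B : ℝ) ^ 3 * D ^ 3 *
            (Real.log X + 2) ^ 2 := by ring
      _ ≤ C1 * (2 * X ^ (153 / 200 : ℝ)) * X ^ (1 / 50 : ℝ) * X ^ (1 / 50 : ℝ) * D ^ 3 *
            X ^ (1 / 1000 : ℝ) := by gcongr
      _ = 2 * C1 * CD ^ 3 * (X ^ (153 / 200 : ℝ) * X ^ (1 / 50 : ℝ) * X ^ (1 / 50 : ℝ) *
            X ^ (3 / 1000 : ℝ) * X ^ (1 / 1000 : ℝ)) := by rw [hD3]; ring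
      _ = 2 * C1 * CD ^ 3 * X ^ (809 / 1000 : ℝ) := by
          rw [← Real.rpow_add hX0, ← Real.rpow_add hX0, ← Real.rpow_add hX0,
            ← Real.rpow_add hX0]
          norm_num
      _ ≤ _ := by
          apply mul_le_mul_of_nonneg_left _ (by positivity)
          exact Real.rpow_le_rpow_of_exponent_le hX1 (by norm_num)
  have T3b : (Y : ℝ) * (C1 * (z' : ℝ) ^ K * ((2 * V + 1) * D * (2 / r))) ≤
      27 * C1 * CD * X ^ (149 / 150 : ℝ) := by
    have hrinv : 1 / r ≤ X ^ (-(49 / 100) : ℝ) := by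
      rw [Real.rpow_neg hX0.le, ← one_div]
      exact one_div_le_one_div_of_le (by positivity) hr1
    calc (Y : ℝ) * (C1 * (z' : ℝ) ^ K * ((2 * V + 1) * D * (2 / r)))
        = C1 * ((2 * V + 1) * Y) * (z' : ℝ) ^ K * D * (2 * (1 / r)) := by ring
      _ ≤ C1 * (27 / 2 * X) * X ^ (1 / 50 : ℝ) * D * (2 * X ^ (-(49 / 100) : ℝ)) := by
          have : (2 * V + 1 : ℝ) * Y ≤ 27 / 2 * X := by
            calc (2 * V + 1 : ℝ) * Y ≤ (9 * X / r) * (3 / 2 * r) :=
                  mul_le_mul hW hYr hY0 (by positivity)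
              _ = 27 / 2 * X := by field_simp; norm_num
          gcongr
      _ = 27 * C1 * CD * (X ^ (1 : ℝ) * X ^ (1 / 50 : ℝ) * X ^ (1 / 1000 : ℝ) *
            X ^ (-(49 / 100) : ℝ)) := by rw [hDdef, Real.rpow_one]; ring
      _ = 27 * C1 * CD * X ^ (531 / 1000 : ℝ) := by
          rw [← Real.rpow_add hX0, ← Real.rpow_add hX0, ← Real.rpow_add hX0]
          norm_num
      _ ≤ _ := by
          apply mul_le_mul_of_nonneg_left _ (by positivity)
          exact Real.rpow_le_rpow_of_exponent_le hX1 (by norm_num)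
  have hX149 : X ^ (149 / 150 : ℝ) ≤ C3 * (X * VF z / Real.log X) := by
    have h1 := hMER2 z hz2
    have hlogz : Real.log z ≤ Real.log X := by
      apply Real.log_le_log (by positivity)
      refine hzx.trans ?_
      calc X ^ η ≤ X ^ (1 : ℝ) := Real.rpow_le_rpow_of_exponent_le hX1 (by linarith)
        _ = X := Real.rpow_one _
    have hlogz0 : 0 < Real.log z := Real.log_pos (by exact_mod_cast hz2)
    have h2 : 1 / (C3 * Real.log X ^ 2) ≤ VF z := by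
      refine le_trans ?_ h1
      apply one_div_le_one_div_of_le (by positivity)
      gcongr
    have h3 : X ^ (149 / 150 : ℝ) * Real.log X ^ 3 ≤ X := by
      calc X ^ (149 / 150 : ℝ) * Real.log X ^ 3 ≤ X ^ (149 / 150 : ℝ) * X ^ (1 / 150 : ℝ) := by
            gcongr
        _ = X := by rw [← Real.rpow_add hX0]; norm_num
    have h4 : X ^ (149 / 150 : ℝ) ≤ X / Real.log X ^ 3 := by
      rw [le_div_iff₀ (by positivity)]; exact h3
    refine h4.trans ?_
    have h5 : X / Real.log X ^ 3 = C3 * (X * (1 / (C3 * Real.log X ^ 2)) / Real.log X) := by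
      have : C3 ≠ 0 := by linarith
      field_simp
    rw [h5]
    gcongr
  set Q := X * VF z / Real.log X with hQ
  have hgoal : 2 * (28 * C3 + 28 * C1 * C2 * C3 / η + (2 * C1 * CD ^ 3 + 27 * C1 * CD) * C3) * X *
      VF z / Real.log X = 2 * (28 * (C3 * Q) + 28 * C1 * C2 * C3 / η * Q +
        (2 * C1 * CD ^ 3 + 27 * C1 * CD) * (C3 * Q)) := by
    rw [hQ]; ring
  rw [hgoal]
  have e1 : 28 * X ^ (149 / 150 : ℝ) ≤ 28 * (C3 * Q) := by linarith
  have e2 : (2 * C1 * CD ^ 3 + 27 * C1 * CD) * X ^ (149 / 150 : ℝ) ≤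
      (2 * C1 * CD ^ 3 + 27 * C1 * CD) * (C3 * Q) :=
    mul_le_mul_of_nonneg_left hX149 (by positivity)
  have e3 : (Y : ℝ) * (C1 * (z' : ℝ) ^ K * ((B : ℝ) ^ 3 * D ^ 3 *
          Real.sqrt (Y : ℕ) * (Real.log X + 2) ^ 2 + (2 * V + 1) * D * (2 / r))) =
      (Y : ℝ) * (C1 * (z' : ℝ) ^ K * ((B : ℝ) ^ 3 * D ^ 3 *
          Real.sqrt (Y : ℕ) * (Real.log X + 2) ^ 2)) +
      (Y : ℝ) * (C1 * (z' : ℝ) ^ K * ((2 * V + 1) * D * (2 / r))) := by ring
  rw [e3]
  linarith only [T1, T2, T3a, T3b, e1, e2]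

end Pool.Agent.D0H98.LP
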