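import Pool.Agent.D0H41.LP.Stm

/-!
# Project LP, module REP: the parametrisation of the pairs `p ∣ m ^ 2 + a`
-/

set_option autoImplicit false

namespace Pool.Agent.D0H98.LP

open Pool.Agent.D0H41.LP Finset

/-- Thue's lemma -/
lemma thue (m p : ℕ) (hp : p.Prime) : ∃ u v : ℤ, (u ≠ 0 ∨ v ≠ 0) ∧ u ^ 2 < p ∧ v ^ 2 < p ∧
    (p : ℤ) ∣ u - m * v := by
  have : NeZero p := ⟨hp.ne_zero⟩
  obtain ⟨k, hk⟩ : ∃ k, k = Nat.sqrt p := ⟨_, rfl⟩
  have h1 : p < (k + 1) * (k + 1) := by rw [hk]; exact Nat.lt_succ_sqrt p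
  have h2 : k * k < p := by
    rcases (Nat.sqrt_le p).lt_or_eq with h | h
    · rw [hk]; exact h
    · exfalso
      have h3 : ¬ Prime (p : ℕ) := by
        rw [← h]
        intro hq
        rcases (Nat.prime_iff.2 hq).eq_one_or_self_of_dvd (Nat.sqrt p) (Dvd.intro _ rfl) with h4 | h4
        · rw [h4] at hq; exact hq.ne_one rfl
        · have : 1 < Nat.sqrt p * Nat.sqrt p := (Nat.prime_iff.2 hq).one_lt
          have h5 : Nat.sqrt p = 1 ∨ Nat.sqrt p = 0 := by
            rcases Nat.eq_zero_or_pos (Nat.sqrt p) with h6 | h6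
            · right; exact h6
            · left
              exact (Nat.eq_of_mul_eq_mul_left h6 (by rw [mul_one]; exact h4)).symm
          rcases h5 with h5 | h5 <;> rw [h5] at this <;> omega
      exact h3 (Nat.prime_iff.1 hp)
  obtain ⟨f, hf⟩ : ∃ f : ℕ × ℕ → ZMod p, f = fun t => (t.1 : ZMod p) - m * t.2 := ⟨_, rfl⟩
  have hcard : (univ : Finset (ZMod p)).card < (range (k + 1) ×ˢ range (k + 1)).card := by
    rw [card_univ, ZMod.card, card_product, card_range]
    exact h1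
  obtain ⟨s, hs, t, ht, hne, hst⟩ := exists_ne_map_eq_of_card_lt_of_maps_to hcard
    (f := f) (fun x _ => mem_univ _)
  rw [mem_product, mem_range, mem_range] at hs ht
  have hsq : ∀ x y : ℕ, x < k + 1 → y < k + 1 → ((x : ℤ) - y) ^ 2 < p := by
    intro x y hx hy
    have h3 : |(x : ℤ) - y| ≤ k := by
      rw [abs_le]; constructor <;> omega
    have h4 : ((x : ℤ) - y) ^ 2 ≤ (k : ℤ) ^ 2 := sq_le_sq' (by linarith [neg_abs_le ((x:ℤ) - y)])
      ((le_abs_self _).trans h3)
    have h5 : (k : ℤ) ^ 2 < p := by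
      have : ((k * k : ℕ) : ℤ) < p := by exact_mod_cast h2
      push_cast at this
      nlinarith
    linarith
  refine ⟨(s.1 : ℤ) - t.1, (s.2 : ℤ) - t.2, ?_, hsq _ _ hs.1 ht.1, hsq _ _ hs.2 ht.2, ?_⟩
  · by_contra hc
    push Not at hc
    apply hne
    exact Prod.ext (by have := hc.1; omega) (by have := hc.2; omega)
  · rw [← ZMod.intCast_zmod_eq_zero_iff_dvd]
    rw [hf] at hst
    simp only at hst
    push_cast
    linear_combination hst

/-- `p = b ^ 2 + a c ^ 2` -/
lemma repr (a m p : ℕ) (ha : a = 1 ∨ a = 3) (hp : p.Prime) (h3 : 3 < p)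
    (hd : p ∣ m ^ 2 + a) : ∃ b c : ℕ, 1 ≤ b ∧ 1 ≤ c ∧ p = b ^ 2 + a * c ^ 2 := by
  have hodd : p % 2 = 1 := by
    rcases hp.eq_two_or_odd with h | h
    · omega
    · exact h
  have hsqn : ∀ c : ℕ, p ≠ c ^ 2 := by
    intro c h
    have h1 : c ∣ p := ⟨c, by rw [h, sq]⟩
    rcases (Nat.dvd_prime hp).1 h1 with h2 | h2
    · rw [h2] at h; omega
    · rw [h2] at h
      have : p * 1 = p * p := by rw [mul_one, ← sq]; exact h
      have := Nat.eq_of_mul_eq_mul_left hp.pos this
      omega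
  -- it suffices to have integers
  have key : ∀ b c : ℤ, (p : ℤ) = b ^ 2 + a * c ^ 2 → ∃ b c : ℕ, 1 ≤ b ∧ 1 ≤ c ∧
      p = b ^ 2 + a * c ^ 2 := by
    intro b c h
    have h' : p = b.natAbs ^ 2 + a * c.natAbs ^ 2 := by
      have : (p : ℤ) = ((b.natAbs ^ 2 + a * c.natAbs ^ 2 : ℕ) : ℤ) := by
        push_cast
        rw [sq_abs, sq_abs]
        exact h
      exact_mod_cast this
    refine ⟨b.natAbs, c.natAbs, ?_, ?_, h'⟩
    · by_contra hc
      have h0 : b.natAbs = 0 := by omega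
      rw [h0] at h'
      rcases ha with rfl | rfl
      · exact hsqn c.natAbs (by rw [h']; ring)
      · have h4 : 3 ∣ p := ⟨c.natAbs ^ 2, by rw [h']; ring⟩
        rcases (Nat.dvd_prime hp).1 h4 with h5 | h5 <;> omega
    · by_contra hc
      have h0 : c.natAbs = 0 := by omega
      rw [h0] at h'
      exact hsqn b.natAbs (by rw [h']; ring)
  obtain ⟨u, v, huv, hu, hv, hdv⟩ := thue m p hp
  have hdN : (p : ℤ) ∣ u ^ 2 + a * v ^ 2 := by
    have h4 : (p : ℤ) ∣ (m : ℤ) ^ 2 + a := by exact_mod_cast hd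
    have h5 : u ^ 2 + a * v ^ 2 = (u - m * v) * (u + m * v) + (m ^ 2 + a) * v ^ 2 := by ring
    rw [h5]
    exact dvd_add (Dvd.dvd.mul_right hdv _) (Dvd.dvd.mul_right h4 _)
  have hpos : 0 < u ^ 2 + a * v ^ 2 := by
    have ha0 : (0 : ℤ) < a := by rcases ha with rfl | rfl <;> norm_num
    rcases huv with h | h
    · have : 0 < u ^ 2 := by positivity
      have : 0 ≤ (a : ℤ) * v ^ 2 := by positivity
      linarith
    · have : 0 ≤ u ^ 2 := by positivity
      have : 0 < (a : ℤ) * v ^ 2 := by positivity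
      linarith
  obtain ⟨t, ht⟩ := hdN
  have hp0 : (0 : ℤ) < p := by exact_mod_cast hp.pos
  have ht0 : 0 < t := by
    by_contra hc
    have : (p : ℤ) * t ≤ 0 := mul_nonpos_of_nonneg_of_nonpos hp0.le (by linarith)
    linarith
  rcases ha with rfl | rfl
  · have h6 : t < 2 := by
      by_contra hc
      have : (p : ℤ) * 2 ≤ p * t := mul_le_mul_of_nonneg_left (by linarith) hp0.le
      push_cast at ht
      linarith
    have h7 : t = 1 := by omega
    rw [h7, mul_one] at ht
    exact key u v ht.symm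
  · have h6 : t < 4 := by
      by_contra hc
      have : (p : ℤ) * 4 ≤ p * t := mul_le_mul_of_nonneg_left (by linarith) hp0.le
      push_cast at ht
      linarith
    have h8 : t = 1 ∨ t = 2 ∨ t = 3 := by omega
    rcases h8 with h7 | h7 | h7
    · rw [h7, mul_one] at ht
      exact key u v ht.symm
    · exfalso
      rw [h7] at ht
      push_cast at ht
      have e1 : u ^ 2 % 4 = 0 ∨ u ^ 2 % 4 = 1 := by
        rcases Int.even_or_odd u with ⟨w, hw⟩ | ⟨w, hw⟩
        · left; rw [hw]; ring_nf; omega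
        · right; rw [hw]; ring_nf; omega
      have e2 : v ^ 2 % 4 = 0 ∨ v ^ 2 % 4 = 1 := by
        rcases Int.even_or_odd v with ⟨w, hw⟩ | ⟨w, hw⟩
        · left; rw [hw]; ring_nf; omega
        · right; rw [hw]; ring_nf; omega
      omega
    · rw [h7] at ht
      push_cast at ht
      have h9 : (3 : ℤ) ∣ u := by
        have : (3 : ℤ) ∣ u ^ 2 := ⟨p - v ^ 2, by linarith⟩
        exact Int.prime_three.dvd_of_dvd_pow this
      obtain ⟨w, hw⟩ := h9
      refine key v w ?_
      rw [hw] at ht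
      push_cast
      nlinarith

/-- **REP** -/
theorem t_REP : S_REP := by
  intro a m p ha hp h3 hm hd
  obtain ⟨b, c, hb, hc, hbc⟩ := repr a m p ha hp h3 hd
  have hcop : IsCoprime (b : ℤ) (c : ℤ) := by
    rw [Nat.isCoprime_iff_coprime, Nat.coprime_iff_gcd_eq_one]
    obtain ⟨g, hg⟩ : ∃ g, g = Nat.gcd b c := ⟨_, rfl⟩
    obtain ⟨b', hb'⟩ : g ∣ b := hg ▸ Nat.gcd_dvd_left b c
    obtain ⟨c', hc'⟩ : g ∣ c := hg ▸ Nat.gcd_dvd_right b c
    have h4 : p = g * (g * (b' ^ 2 + a * c' ^ 2)) := by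
      rw [hbc, hb', hc']; ring
    have h5 : g ∣ p := ⟨_, h4⟩
    rcases (Nat.dvd_prime hp).1 h5 with h6 | h6
    · rw [← hg, h6]
    · exfalso
      rw [h6] at h4
      have h7 : p * 1 = p * (p * (b' ^ 2 + a * c' ^ 2)) := by rw [mul_one]; exact h4
      have h8 := Nat.eq_of_mul_eq_mul_left hp.pos h7
      have h9 : p ∣ 1 := ⟨_, h8⟩
      have := Nat.le_of_dvd one_pos h9
      omega
  have hpZ : (p : ℤ) = b ^ 2 + a * c ^ 2 := by exact_mod_cast hbc
  have hp' : Prime (p : ℤ) := Nat.prime_iff_prime_int.1 hp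
  have hdZ : (p : ℤ) ∣ (m : ℤ) ^ 2 + a := by exact_mod_cast hd
  obtain ⟨ε, hε, hεd⟩ : ∃ ε : ℤ, (ε = 1 ∨ ε = -1) ∧ (p : ℤ) ∣ m * c - ε * b := by
    have h4 : (p : ℤ) ∣ (m * c - b) * (m * c + b) := by
      have h5 : ((m : ℤ) * c - b) * (m * c + b) = (m ^ 2 + a) * c ^ 2 - p := by
        rw [hpZ]; ring
      rw [h5]
      exact dvd_sub (Dvd.dvd.mul_right hdZ _) dvd_rfl
    rcases hp'.dvd_or_dvd h4 with h | h
    · exact ⟨1, Or.inl rfl, by simpa using h⟩
    · refine ⟨-1, Or.inr rfl, ?_⟩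
      have : (m : ℤ) * c - -1 * b = m * c + b := by ring
      rw [this]; exact h
  have hε2 : ε * ε = 1 := by rcases hε with rfl | rfl <;> norm_num
  have hεa : |ε| = 1 := by rcases hε with rfl | rfl <;> norm_num
  have hp0 : (0 : ℤ) < p := by exact_mod_cast hp.pos
  have hm0 : (0 : ℤ) ≤ m := by positivity
  have ha1 : (1 : ℤ) ≤ a := by rcases ha with rfl | rfl <;> norm_num
  rcases le_or_gt b c with hle | hlt
  · -- `j = true`
    obtain ⟨s, hs⟩ : (p : ℤ) ∣ b - ε * m * c := by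
      have h4 : (b : ℤ) - ε * m * c = -ε * (m * c - ε * b) := by
        linear_combination (-(b : ℤ)) * hε2
      rw [h4]
      exact Dvd.dvd.mul_left hεd _
    have hL : Lf true a b s c = ε * m * c := by
      unfold Lf Qf
      simp only [if_true]
      rw [← hpZ, ← hs]; ring
    refine ⟨true, c, b, s, hb, hle, ?_, ?_, ?_, ?_⟩
    · rw [Int.modEq_iff_dvd]
      have h5 : (c : ℤ) ∣ (1 - b * s) * b := by
        refine ⟨ε * m + a * c * s, ?_⟩
        have h6 : (b : ℤ) - ε * m * c = (b ^ 2 + a * c ^ 2) * s := by rw [hs, ← hpZ]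
        linear_combination h6
      exact hcop.symm.dvd_of_dvd_mul_right h5
    · unfold Qf
      simp only [if_true]
      exact hpZ.symm
    · have h5 : |s| * p = |(b : ℤ) - ε * m * c| := by
        rw [hs, abs_mul, abs_of_pos hp0, mul_comm]
      rw [h5]
      have h6 : |(b : ℤ) - ε * m * c| ≤ b + m * c := by
        refine (abs_sub _ _).trans ?_
        rw [abs_mul, abs_mul, hεa, one_mul, abs_of_nonneg hm0, Nat.abs_cast, Nat.abs_cast]
      have h7 : (b : ℤ) ≤ a * c := by
        have : (b : ℤ) ≤ c := by exact_mod_cast hle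
        nlinarith
      linarith
    · rw [hL, abs_mul, abs_mul, hεa, one_mul, abs_of_nonneg hm0, Nat.abs_cast, mul_comm]
  · -- `j = false`
    obtain ⟨s, hs⟩ : (p : ℤ) ∣ ε * m * b + a * c := by
      have h4 : ε * m * b + a * c = (m ^ 2 + a) * c - m * (m * c - ε * b) := by ring
      rw [h4]
      exact dvd_sub (Dvd.dvd.mul_right hdZ _) (Dvd.dvd.mul_left hεd _)
    have hL : Lf false a c s b = ε * m * b := by
      unfold Lf Qf
      simp only [Bool.false_eq_true, if_false]
      rw [← hpZ, ← hs]; ring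
    have hcab : IsCoprime (b : ℤ) (a : ℤ) := by
      rcases ha with rfl | rfl
      · exact isCoprime_one_right
      · rw [Nat.isCoprime_iff_coprime, Nat.coprime_comm, Nat.Prime.coprime_iff_not_dvd Nat.prime_three]
        intro h4
        have h5 : 3 ∣ p := by
          rw [hbc]
          exact dvd_add (Dvd.dvd.pow h4 (by norm_num)) (Dvd.intro _ rfl)
        rcases (Nat.dvd_prime hp).1 h5 with h6 | h6 <;> omega
    refine ⟨false, b, c, s, hc, hlt.le, ?_, ?_, ?_, ?_⟩
    · rw [Int.modEq_iff_dvd]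
      have h5 : (b : ℤ) ∣ (1 - c * s) * (a * c) := by
        refine ⟨b * s - ε * m, ?_⟩
        have h6 : ε * m * b + a * c = (b ^ 2 + a * c ^ 2) * s := by rw [hs, ← hpZ]
        linear_combination h6
      exact (hcab.mul_right hcop).dvd_of_dvd_mul_right h5
    · unfold Qf
      simp only [Bool.false_eq_true, if_false]
      exact hpZ.symm
    · have h5 : |s| * p = |ε * m * b + (a : ℤ) * c| := by
        rw [hs, abs_mul, abs_of_pos hp0, mul_comm]
      rw [h5]
      have h6 : |ε * m * b + (a : ℤ) * c| ≤ m * b + a * c := by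
        refine (abs_add_le _ _).trans ?_
        rw [abs_mul, abs_mul, abs_mul, hεa, one_mul, abs_of_nonneg hm0, Nat.abs_cast, Nat.abs_cast,
          Nat.abs_cast]
      have h7 : (a : ℤ) * c ≤ a * b := by
        have : (c : ℤ) ≤ b := by exact_mod_cast hlt.le
        nlinarith
      linarith
    · rw [hL, abs_mul, abs_mul, hεa, one_mul, abs_of_nonneg hm0, Nat.abs_cast, mul_comm]

end Pool.Agent.D0H98.LP
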